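import Mathlib
import Pool.Agent.H45.Lib.S8.TH841.SH.ShaDef

/-!
# The Tate-Shafarevich group of an elliptic curve over a number field

`Ш(W) = ker (H¹(F, W) → ∏ H¹(F_v, W))`, with continuous cocycles of the absolute Galois groups.
-/

set_option autoImplicit false

namespace Pool.Agent.TH841.NF.D

open WeierstrassCurve

open Pool.Agent.TH841.SH.D (Pt act Gal Coch IsCoc IsCob LocTriv cob Pruf coc_zero coc_add coc_neg
  loc_zero loc_add loc_neg)

variable {F : Type} [Field F] [NumberField F]

/-- a continuous cocycle that is locally trivial at all the places of `F` -/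
def IsShaCoc (W : WeierstrassCurve F) (f : Coch W) : Prop :=
  IsCoc W f ∧
  (∀ v : IsDedekindDomain.HeightOneSpectrum (NumberField.RingOfIntegers F),
    LocTriv W (v.adicCompletion F) f) ∧
  ∀ v : NumberField.InfinitePlace F, LocTriv W v.Completion f

/-- the group of the continuous cocycles that are locally trivial at all the places of `F` -/
def shaCoc (W : WeierstrassCurve F) : AddSubgroup (Coch W) where
  carrier := {f | IsShaCoc W f}
  zero_mem' := ⟨coc_zero W, fun _ => loc_zero W _, fun _ => loc_zero W _⟩
  add_mem' := fun hf hg => ⟨coc_add hf.1 hg.1, fun v => loc_add (hf.2.1 v) (hg.2.1 v),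
    fun v => loc_add (hf.2.2 v) (hg.2.2 v)⟩
  neg_mem' := fun hf => ⟨coc_neg hf.1, fun v => loc_neg (hf.2.1 v), fun v => loc_neg (hf.2.2 v)⟩

/-- the Tate-Shafarevich group of `W` over `F` -/
def Sha (W : WeierstrassCurve F) : Type := shaCoc W ⧸ (cob W).addSubgroupOf (shaCoc W)

/-- the group law on the Tate-Shafarevich group -/
noncomputable instance Sha.group (W : WeierstrassCurve F) : AddCommGroup (Sha W) :=
  @QuotientAddGroup.Quotient.addCommGroup (shaCoc W) _ ((cob W).addSubgroupOf (shaCoc W))

/-- the Tate-Shafarevich group has a subgroup isomorphic to `(ℚ₂ / ℤ₂) ^ q` -/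
def HasDiv (W : WeierstrassCurve F) (q : ℕ) : Prop :=
  ∃ f : (Fin q → Pruf) →+ Sha W, Function.Injective f

/-- the largest `q` such that the Tate-Shafarevich group has a subgroup isomorphic to
`(ℚ₂ / ℤ₂) ^ q`, that is, the corank of its 2-primary part -/
noncomputable def crk (W : WeierstrassCurve F) : ℕ := sSup {q | HasDiv W q}

/-- the rank of the group of the points over `F` -/
noncomputable def rk (W : WeierstrassCurve F) : ℕ :=
  @Module.finrank ℤ W.toAffine.Point _
    (@Affine.Point.instAddCommGroup F _ W.toAffine (Classical.decEq F)).toAddCommMonoid _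

end Pool.Agent.TH841.NF.D
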